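import Pool.Agent.Y278.MK.Stm

/-! The radius of curvature of a support function is nonnegative. -/

set_option autoImplicit false

namespace Pool.Agent.Y210.MK

open Set Real Filter Topology
open Pool.Agent.Y278.MK

/-- at a minimum the second derivative is nonnegative -/
theorem second_nonneg {g : ℝ → ℝ} {x : ℝ} (hg : Differentiable ℝ g) (h : ∀ y, g x ≤ g y) :
    0 ≤ deriv (deriv g) x := by
  by_contra hcon
  rw [not_le] at hcon
  have hmin : IsLocalMin g x := Eventually.of_forall h
  have hmax := isLocalMax_of_deriv_deriv_neg hcon hmin.deriv_eq_zero hg.continuous.continuousAt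
  have hconst : g =ᶠ[𝓝 x] fun _ => g x := by
    filter_upwards [hmax] with y hy
    exact le_antisymm hy (h y)
  have h1 := hconst.deriv.deriv_eq
  have h2 : deriv (deriv fun _ : ℝ => g x) x = 0 := by simp
  rw [h1, h2] at hcon
  exact lt_irrefl _ hcon

theorem rho_thm : S_RHO := by
  intro K h hh hK
  refine ⟨⟨hh, fun x => ?_⟩, fun θ => ?_⟩
  · have h1 := hK (x + 2 * π)
    simp only [cos_add_two_pi, sin_add_two_pi] at h1
    exact h1.unique (hK x)
  · obtain ⟨⟨p, hp, hpe⟩, -⟩ := hK θ
    have hpe' : p.re * cos θ + p.im * sin θ = h θ := hpe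
    have hd0 : Differentiable ℝ h := hh.differentiable (by norm_num)
    have hd1 : Differentiable ℝ (deriv h) :=
      ((contDiff_succ_iff_deriv (n := 1)).1 hh).2.2.differentiable (by norm_num)
    obtain ⟨g, hg⟩ : ∃ g : ℝ → ℝ, g = fun x => h x - (p.re * cos x + p.im * sin x) := ⟨_, rfl⟩
    have e1 : ∀ x, HasDerivAt g (deriv h x - (p.re * (-sin x) + p.im * cos x)) x := by
      intro x
      rw [hg]
      exact (hd0 x).hasDerivAt.sub (((hasDerivAt_cos x).const_mul _).add
        ((hasDerivAt_sin x).const_mul _))
    have e2 : deriv g = fun x => deriv h x - (p.re * (-sin x) + p.im * cos x) :=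
      funext fun x => (e1 x).deriv
    have e3 : deriv (deriv g) θ = deriv (deriv h) θ -
        (p.re * (-cos θ) + p.im * (-sin θ)) := by
      rw [e2]
      exact ((hd1 θ).hasDerivAt.sub (((hasDerivAt_sin θ).neg.const_mul _).add
        ((hasDerivAt_cos θ).const_mul _))).deriv
    have h1 : 0 ≤ deriv (deriv g) θ := by
      refine second_nonneg (fun x => (e1 x).differentiableAt) fun y => ?_
      have h2 : g θ = 0 := by rw [hg]; show h θ - _ = 0; linarith
      have h3 : p.re * cos y + p.im * sin y ≤ h y := (hK y).2 ⟨p, hp, rfl⟩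
      rw [h2, hg]
      show 0 ≤ h y - _
      linarith
    rw [e3] at h1
    unfold rho
    linarith

end Pool.Agent.Y210.MK
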